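import Pool.Agent.W147.LF.Final

open Polynomial

namespace Pool.Agent.W147.LF

theorem odd_part (K : Type) [Field K] : ∀ (n : ℕ) (Q : K[X]), Q ≠ 0 → Q.natDegree = n →
    (∀ (c : K) (z : K[X]), Q ≠ C c * z ^ 2) →
    ∃ (f : K[X]) (j : ℕ) (Qt : K[X]), f.Monic ∧ Irreducible f ∧ Odd j ∧ Q = f ^ j * Qt ∧
      ¬ f ∣ Qt := by
  intro n
  induction n using Nat.strong_induction_on with
  | _ n ih =>
  intro Q hQ0 hQn hQ
  by_cases hu : IsUnit Q
  · exfalso
    obtain ⟨c, hc, rfl⟩ := Polynomial.isUnit_iff.mp hu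
    exact hQ c 1 (by simp)
  · obtain ⟨g, hgm, hgi, hgd⟩ := Polynomial.exists_monic_irreducible_factor Q hu
    have hfin : FiniteMultiplicity g Q := FiniteMultiplicity.of_not_isUnit hgi.not_isUnit hQ0
    obtain ⟨R0, hR, hgR⟩ := hfin.exists_eq_pow_mul_and_not_dvd
    obtain ⟨m, hm⟩ : ∃ m, m = multiplicity g Q := ⟨_, rfl⟩
    rw [← hm] at hR
    have hm0 : m ≠ 0 := by
      rintro rfl
      rw [pow_zero, one_mul] at hR
      rw [hR] at hgd
      exact hgR hgd
    by_cases hodd : Odd m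
    · exact ⟨g, m, R0, hgm, hgi, hodd, hR, hgR⟩
    · rw [Nat.not_odd_iff_even] at hodd
      obtain ⟨k, hk⟩ := hodd
      have hR0 : R0 ≠ 0 := by
        rintro rfl
        exact hgR (dvd_zero _)
      have hlt : R0.natDegree < n := by
        rw [← hQn, hR, natDegree_mul (pow_ne_zero _ hgm.ne_zero) hR0, natDegree_pow]
        have := hgi.natDegree_pos
        have : 0 < m * g.natDegree := Nat.mul_pos (Nat.pos_of_ne_zero hm0) this
        omega
      obtain ⟨f, j, Qt, h1, h2, h3, h4, h5⟩ := ih _ hlt R0 hR0 rfl (by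
        intro c z hz
        apply hQ c (g ^ k * z)
        rw [hR, hz, hk]
        ring)
      refine ⟨f, j, g ^ m * Qt, h1, h2, h3, ?_, ?_⟩
      · rw [hR, h4]; ring
      · intro hd
        rcases h2.prime.dvd_or_dvd hd with h | h
        · have h6 : f ∣ g := h2.prime.dvd_of_dvd_pow h
          have h7 : f = g := eq_of_monic_of_associated h1 hgm (h2.associated_of_dvd hgi h6)
          apply hgR
          rw [h4, h7]
          exact Dvd.dvd.mul_right (dvd_pow_self g (by rintro rfl; simp at h3)) _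
        · exact h5 h

theorem nsq (K : Type) [Field K] [Fintype K] (hodd : Odd (Fintype.card K)) (P : K[X])
    (hP : P.Monic) (hirr : Irreducible P) : ∃ B : K[X], R P B ^ hq K = -1 := by
  classical
  have hd : 0 < P.natDegree := hirr.natDegree_pos
  obtain ⟨n, hn⟩ : ∃ n, P.natDegree = n + 1 := ⟨P.natDegree - 1, by omega⟩
  obtain ⟨θ, hθ, hvinj, hroot⟩ := NPELIRR.exists_orbit P hP hirr n hn
  set v : Fin (n + 1) → AlgebraicClosure K := fun i => θ ^ (Fintype.card K ^ (i : ℕ)) with hv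
  set PL : (AlgebraicClosure K)[X] := P.map (algebraMap K (AlgebraicClosure K)) with hPL
  have hPLm : PL.Monic := hP.map _
  have hPLd : PL.natDegree = n + 1 := by rw [hPL, natDegree_map, hn]
  have hroots : PL.roots = (Finset.univ : Finset (Fin (n + 1))).val.map v := by
    symm
    apply Multiset.eq_of_le_of_card_le
    · rw [Multiset.le_iff_subset ((Finset.univ : Finset (Fin (n + 1))).nodup.map hvinj)]
      intro x hx
      rw [Multiset.mem_map] at hx
      obtain ⟨i, _, rfl⟩ := hx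
      rw [mem_roots hPLm.ne_zero, IsRoot.def, hPL, eval_map_algebraMap]
      exact hroot i
    · rw [Multiset.card_map]
      refine (card_roots' _).trans ?_
      rw [hPLd]; simp
  have hfrob : ∀ (i : ℕ) (B : K[X]), aeval (θ ^ (Fintype.card K ^ i)) B =
      (aeval θ B) ^ (Fintype.card K ^ i) := by
    intro i B
    have hpow : ∀ (k : ℕ) (x : AlgebraicClosure K),
        (FiniteField.frobeniusAlgHom K (AlgebraicClosure K) ^ k) x = x ^ (Fintype.card K ^ k) := by
      intro k x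
      rw [AlgHom.coe_pow, FiniteField.coe_frobeniusAlgHom, pow_iterate]
    rw [← hpow, ← hpow, aeval_algHom_apply]
  have hR : ∀ B : K[X], R P B =
      (aeval θ B) ^ (∑ i ∈ Finset.range (n + 1), Fintype.card K ^ i) := by
    intro B
    unfold R
    have e1 : P.aroots (AlgebraicClosure K) = PL.roots := rfl
    rw [e1, hroots, Multiset.map_map]
    show ∏ i : Fin (n + 1), _ = _
    have e2 : ∀ i : Fin (n + 1), ((fun r => aeval r B) ∘ v) i =
        (aeval θ B) ^ (Fintype.card K ^ (i : ℕ)) := fun i => hfrob i B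
    rw [Finset.prod_congr rfl (fun i _ => e2 i), Finset.prod_pow_eq_pow_sum,
      Fin.sum_univ_eq_sum_range (fun i => Fintype.card K ^ i)]
  have : Fact (Irreducible P) := ⟨hirr⟩
  have hP0 : P ≠ 0 := hP.ne_zero
  have : Module.Finite K (AdjoinRoot P) := (AdjoinRoot.powerBasis hP0).finite
  have : Finite (AdjoinRoot P) := Module.finite_of_finite K
  have : Fintype (AdjoinRoot P) := Fintype.ofFinite _
  have hfr : Module.finrank K (AdjoinRoot P) = n + 1 := by
    rw [(AdjoinRoot.powerBasis hP0).finrank]; exact hn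
  have hcard : Fintype.card (AdjoinRoot P) = Fintype.card K ^ (n + 1) := by
    rw [← hfr]; exact Module.card_eq_pow_finrank
  have hoddF : Odd (Fintype.card (AdjoinRoot P)) := by rw [hcard]; exact hodd.pow
  have hc : ringChar (AdjoinRoot P) ≠ 2 := by
    intro h
    have := FiniteField.even_card_iff_char_two.mp h
    obtain ⟨k, hk⟩ := hoddF
    omega
  obtain ⟨g, hg⟩ := FiniteField.exists_nonsquare hc
  have hg0 : g ≠ 0 := by
    rintro rfl
    exact hg ⟨0, by simp⟩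
  have hg1 : g ^ (Fintype.card (AdjoinRoot P) / 2) = -1 := by
    rcases FiniteField.pow_dichotomy hc hg0 with h | h
    · exact absurd ((FiniteField.isSquare_iff hc hg0).mpr h) hg
    · exact h
  obtain ⟨B, rfl⟩ := AdjoinRoot.mk_surjective g
  have hr0 : aeval θ P = 0 := by simpa using hroot 0
  have hB : (aeval θ B) ^ (Fintype.card (AdjoinRoot P) / 2) = -1 := by
    have hr1 : eval₂ (algebraMap K (AlgebraicClosure K)) θ P = 0 := hr0
    have h1 : AdjoinRoot.lift (algebraMap K (AlgebraicClosure K)) θ hr1 (AdjoinRoot.mk P B) =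
        aeval θ B := by
      rw [AdjoinRoot.lift_mk]
      rfl
    rw [← h1, ← map_pow, hg1, map_neg, map_one]
  refine ⟨B, ?_⟩
  rw [hR, ← pow_mul, ← hB]
  congr 1
  have h1 : (∑ i ∈ Finset.range (n + 1), Fintype.card K ^ i) * (Fintype.card K - 1) =
      Fintype.card K ^ (n + 1) - 1 := by
    have hq1 : 1 ≤ Fintype.card K := Fintype.card_pos
    have h2 := geom_sum_mul (Fintype.card K : ℤ) (n + 1)
    have h3 : 1 ≤ Fintype.card K ^ (n + 1) := Nat.one_le_pow _ _ hq1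
    zify [hq1, h3]
    exact h2
  rw [hcard]
  unfold hq
  obtain ⟨k, hk⟩ := hodd
  have h4 : (Fintype.card K - 1) / 2 = k := by omega
  have h5 : Fintype.card K - 1 = 2 * k := by omega
  rw [h4]
  rw [h5] at h1
  have h6 : (∑ i ∈ Finset.range (n + 1), Fintype.card K ^ i) * (2 * k) =
    2 * ((∑ i ∈ Finset.range (n + 1), Fintype.card K ^ i) * k) := by ring
  rw [h6] at h1
  rw [hcard] at hoddF
  obtain ⟨k2, hk2⟩ := hoddF
  omega

theorem Rpow {K : Type} [Field K] (f B : K[X]) (hf : f ≠ 0) (j : ℕ) : R (f ^ j) B = R f B ^ j := by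
  induction j with
  | zero =>
    rw [pow_zero, pow_zero]
    unfold R
    simp
  | succ j ih =>
    rw [pow_succ, NBAS1.t_RmulL K (f ^ j) f B (pow_ne_zero _ hf) hf, ih, pow_succ]

theorem key3 (K : Type) [Field K] [Fintype K] (hodd : Odd (Fintype.card K))
    (s Qm f E0 : K[X]) (a : K) (j e : ℕ) (ha : a ≠ 0) (hQm : Qm.Monic) (hf : f.Monic)
    (hQ : (C (2⁻¹ : K) * derivative s) ^ 2 + s = C a * (f ^ j * Qm))
    (hcop : IsCoprime Qm (Y s + E0)) (hse : s.natDegree < e) (he : 1 < e) :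
    ∃ κ : AlgebraicClosure K, κ ≠ 0 ∧ ∀ (E B : K[X]), IsCoprime f B → E.Monic →
      E.natDegree = e → derivative E = 0 → Qm ∣ E - E0 → f ∣ Y s + E - B →
      Squarefree ((X + E) ^ 2 + s) ∧
      (-1) ^ Om ((X + E) ^ 2 + s) = κ * (R f B) ^ (hq K * j) := by
  have h2 : (2 : K) ≠ 0 := two_ne K hodd
  have hρ0 : R Qm (Y s + E0) ≠ 0 := (NBAS2.t_Rne K Qm (Y s + E0) hQm.ne_zero).2 hcop
  have h2L : algebraMap K (AlgebraicClosure K) 2 ≠ 0 := by
    rw [Ne, map_eq_zero]; exact h2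
  have haL : algebraMap K (AlgebraicClosure K) a ≠ 0 := by
    rw [Ne, map_eq_zero]; exact ha
  obtain ⟨A, hAdef⟩ : ∃ A : AlgebraicClosure K, A =
      (algebraMap K (AlgebraicClosure K) 2) ^ (2 * e) * ((-1) ^ (2 * e * e) *
        ((algebraMap K (AlgebraicClosure K) a) ^ e *
          ((-1) ^ (e * (f ^ j * Qm).natDegree) * R Qm (Y s + E0)))) := ⟨_, rfl⟩
  have hA0 : A ≠ 0 := by
    rw [hAdef]
    refine mul_ne_zero (pow_ne_zero _ h2L) (mul_ne_zero (pow_ne_zero _ (by simp))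
      (mul_ne_zero (pow_ne_zero _ haL) (mul_ne_zero (pow_ne_zero _ (by simp)) hρ0)))
  obtain ⟨B', hBdef⟩ : ∃ B' : AlgebraicClosure K, B' =
      ((-1) ^ ((2 * e) * ((2 * e) - 1) / 2)) ^ hq K * (-1) ^ (2 * e) := ⟨_, rfl⟩
  have hB0 : B' ≠ 0 := by
    rw [hBdef]
    exact mul_ne_zero (pow_ne_zero _ (pow_ne_zero _ (by simp))) (pow_ne_zero _ (by simp))
  refine ⟨A ^ hq K * B'⁻¹, mul_ne_zero (pow_ne_zero _ hA0) (inv_ne_zero hB0), ?_⟩
  intro E B hfB hEm hEd hE' hNE hfE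
  have hlt : (X : K[X]).degree < E.degree := by
    apply degree_lt_degree
    rw [natDegree_X, hEd]; exact he
  have hXEm : (X + E).Monic := by rw [add_comm]; exact hEm.add_of_left hlt
  have hXEd : (X + E).natDegree = e := by
    rw [add_comm, natDegree_add_eq_left_of_degree_lt hlt, hEd]
  have hlt2 : s.degree < ((X + E) ^ 2).degree := by
    apply degree_lt_degree
    rw [hXEm.natDegree_pow, hXEd]; omega
  have hum : ((X + E) ^ 2 + s).Monic := (hXEm.pow 2).add_of_left hlt2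
  have hud : ((X + E) ^ 2 + s).natDegree = 2 * e := by
    rw [natDegree_add_eq_left_of_degree_lt hlt2, hXEm.natDegree_pow, hXEd]
  have h21 := C_two_half (K := K) hodd
  have hder : derivative ((X + E) ^ 2 + s) = C 2 * (Y s + E) := by
    rw [derivative_add, derivative_pow, derivative_add, hE', derivative_X]
    have h5 : C ((2 : ℕ) : K) * (X + E) ^ (2 - 1) * (1 + 0) + derivative s =
        C (2 : K) * (X + E) + derivative s := by
      simp
    rw [h5]
    unfold Y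
    linear_combination (-(derivative s)) * h21
  have hdvd : (Y s + E) ∣ ((X + E) ^ 2 + s) - C a * (f ^ j * Qm) := by
    rw [← hQ]
    refine ⟨X + E - C (2⁻¹ : K) * derivative s, ?_⟩
    unfold Y
    ring
  obtain ⟨u, hu⟩ : ∃ u : K[X], u = (X + E) ^ 2 + s := ⟨_, rfl⟩
  rw [← hu] at hum hud hder hdvd ⊢
  have hYd := NKEY22.deg_Y_lt K s e hse he
  have hPm : (Y s + E).Monic := by
    rw [add_comm]
    refine hEm.add_of_left (degree_lt_degree ?_)
    rw [hEd]; exact hYd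
  have hPd : (Y s + E).natDegree = e := by
    rw [add_comm, natDegree_add_eq_left_of_natDegree_lt (by rw [hEd]; exact hYd), hEd]
  obtain ⟨P, hPdef⟩ : ∃ P : K[X], P = Y s + E := ⟨_, rfl⟩
  rw [← hPdef] at hPm hPd hder hdvd hfE
  have hcf : IsCoprime f P := by
    obtain ⟨w, hw⟩ := hfE
    have h1 : P = B + f * w := by rw [← hw]; ring
    rw [h1]
    exact hfB.add_mul_left_right w
  have hQE : Qm ∣ P - (Y s + E0) := by
    have h1 : P - (Y s + E0) = E - E0 := by rw [hPdef]; ring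
    rw [h1]
    exact hNE
  have hcQ : IsCoprime Qm P := by
    obtain ⟨w, hw⟩ := hQE
    have h1 : P = (Y s + E0) + Qm * w := by rw [← hw]; ring
    rw [h1]
    exact hcop.add_mul_left_right w
  have hcfQ : IsCoprime (C a * (f ^ j * Qm)) P :=
    ((NKEY22.cop_unit K P a ha).symm).mul_left ((hcf.pow_left).mul_left hcQ)
  have hcu : IsCoprime u P := by
    obtain ⟨w, hw⟩ := hdvd
    have h1 : u = C a * (f ^ j * Qm) + w * P := by linear_combination hw
    rw [h1]
    exact hcfQ.add_mul_right_left w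
  have hsep : IsCoprime u (derivative u) := by
    rw [hder]
    exact (NKEY22.cop_unit K u 2 h2).mul_right hcu
  have hsq : Squarefree u := Polynomial.Separable.squarefree hsep
  refine ⟨hsq, ?_⟩
  have hPel := pel K hodd u hum hsq
  have hfQm : (f ^ j * Qm).Monic := (hf.pow j).mul hQm
  have hR : R u (derivative u) = A * (R f B) ^ j := by
    rw [hder, NBAS1.t_RmulR, NBAS1.t_RC, NSWAP.t_Rswap K u P hum hPm,
      NBAS1.t_Rcongr K P u (C a * (f ^ j * Qm)) hdvd, NBAS1.t_RmulR, NBAS1.t_RC,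
      NSWAP.t_Rswap K P (f ^ j * Qm) hPm hfQm,
      NBAS1.t_RmulL K (f ^ j) Qm P (hf.pow j).ne_zero hQm.ne_zero, Rpow f P hf.ne_zero,
      NBAS1.t_Rcongr K f P B hfE,
      NBAS1.t_Rcongr K Qm P (Y s + E0) hQE, hud, hPd, hAdef]
    ring
  rw [hR, hud] at hPel
  rw [pow_add, ← mul_assoc, ← hBdef, mul_pow, ← pow_mul, mul_comm j] at hPel
  rw [mul_right_comm, hPel, mul_right_comm, mul_inv_cancel₀ hB0, one_mul]

theorem quad (K : Type) [Field K] [Fintype K] (hodd : Odd (Fintype.card K)) (D : K[X])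
    (hD : ∀ (c : K) (z : K[X]), (C (2⁻¹ : K) * derivative D) ^ 2 + D ≠ C c * z ^ 2)
    (ε : ℤ) (hε : ε = 1 ∨ ε = -1) (n0 : ℕ) :
    ∃ f : K[X], f.Monic ∧ n0 ≤ f.natDegree ∧ mu (f ^ 2 + D) = ε := by
  classical
  have hQ0 : (C (2⁻¹ : K) * derivative D) ^ 2 + D ≠ 0 := by
    intro h
    exact hD 0 0 (by rw [h]; simp)
  obtain ⟨f, j, Qt, hfm, hfi, hj, hQ, hfQ⟩ := odd_part K _ _ hQ0 rfl hD
  have hQt0 : Qt ≠ 0 := by
    rintro rfl
    exact hfQ (dvd_zero _)
  obtain ⟨a, ha⟩ : ∃ a : K, a = Qt.leadingCoeff := ⟨_, rfl⟩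
  have ha0 : a ≠ 0 := by rw [ha]; exact leadingCoeff_ne_zero.mpr hQt0
  obtain ⟨Qm, hQm⟩ : ∃ Qm : K[X], Qm = Qt * C a⁻¹ := ⟨_, rfl⟩
  have hQmm : Qm.Monic := by rw [hQm, ha]; exact monic_mul_leadingCoeff_inv hQt0
  have hCa : C a * C a⁻¹ = 1 := by rw [← C_mul, mul_inv_cancel₀ ha0, C_1]
  have hQtQ : Qt = C a * Qm := by
    rw [hQm]
    linear_combination (-Qt) * hCa
  have hQ' : (C (2⁻¹ : K) * derivative D) ^ 2 + D = C a * (f ^ j * Qm) := by
    rw [hQ, hQtQ]; ring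
  have hfQm : IsCoprime f Qm := by
    rw [hfi.coprime_iff_not_dvd]
    intro h
    apply hfQ
    rw [hQtQ]
    exact Dvd.dvd.mul_left h _
  obtain ⟨e', he'⟩ : ∃ e' : ℕ, e' = (f ^ j * Qm).natDegree.factorial := ⟨_, rfl⟩
  have he'0 : e' ≠ 0 := by rw [he']; exact Nat.factorial_ne_zero _
  have hW0 : f ^ j * Qm ≠ 0 := ((hfm.pow j).mul hQmm).ne_zero
  have hdeg : ∀ g : K[X], Irreducible g → g ∣ f ^ j * Qm → g.natDegree ∣ e' := by
    intro g hg hgd
    rw [he']
    exact Nat.dvd_factorial hg.natDegree_pos (natDegree_le_of_dvd hgd hW0)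
  have hj0 : j ≠ 0 := by rintro rfl; simp at hj
  obtain ⟨Q, hQQ⟩ : ∃ Q : ℕ, Q = Fintype.card K ^ e' := ⟨_, rfl⟩
  have hQpos : 1 ≤ Q := by rw [hQQ]; exact Nat.one_le_pow _ _ Fintype.card_pos
  obtain ⟨A0, hA0⟩ : ∃ A0 : K[X], A0 = 1 - Y D := ⟨_, rfl⟩
  obtain ⟨E0, hE0⟩ : ∃ E0 : K[X], E0 = A0 ^ Q := ⟨_, rfl⟩
  have hcop : IsCoprime Qm (Y D + E0) := by
    apply isCoprime_of_irreducible_dvd
    · rintro ⟨h1, -⟩
      exact hQmm.ne_zero h1
    · intro z hz hz1 hz2
      have h1 : z ∣ A0 ^ Q - A0 := by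
        rw [hQQ]
        exact NFROBSPLIT.t_Frob K z A0 e' hz (hdeg z hz (Dvd.dvd.mul_left hz1 _))
      have h2 := dvd_sub hz2 h1
      have h3 : Y D + E0 - (A0 ^ Q - A0) = 1 := by rw [hE0, hA0]; ring
      rw [h3] at h2
      exact hz.not_isUnit (isUnit_of_dvd_one h2)
  obtain ⟨a0, ha0'⟩ := NA.t_A K {0} (fun _ => f) Qm hQmm (by simp) (by
    intro s _
    exact ⟨hfm, hfi, hfQm⟩)
  obtain ⟨b, hb⟩ : ∃ b : ℕ, b = a0 + D.natDegree + A0.natDegree + 2 + n0 := ⟨_, rfl⟩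
  obtain ⟨e, he⟩ : ∃ e : ℕ, e = Q * b := ⟨_, rfl⟩
  have hbe : b ≤ e := by rw [he]; exact Nat.le_mul_of_pos_left _ (by omega)
  obtain ⟨κ, hκ0, hκ⟩ := key3 K hodd D Qm f E0 a j e ha0 hQmm hfm hQ' hcop (by omega) (by omega)
  have hE : ∀ B : K[X], ∃ E : K[X], E.Monic ∧ E.natDegree = e ∧ derivative E = 0 ∧
      Qm ∣ E - E0 ∧ f ∣ Y D + E - B := by
    intro B
    obtain ⟨A', hA'm, hA'd, hA'N, hA'f⟩ := ha0' b (by omega) (fun _ => B - Y D - A0)
    have hlt : A0.degree < A'.degree := by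
      apply degree_lt_degree
      omega
    have hAm : (A' + A0).Monic := hA'm.add_of_left hlt
    have hAd : (A' + A0).natDegree = b := by
      rw [natDegree_add_eq_left_of_degree_lt hlt, hA'd]
    refine ⟨(A' + A0) ^ Q, hAm.pow Q, ?_, ?_, ?_, ?_⟩
    · rw [hAm.natDegree_pow, hAd, he]
    · rw [hQQ]; exact deriv_pow_card K _ e' he'0
    · rw [hE0]
      refine dvd_trans ?_ (sub_dvd_pow_sub_pow (A' + A0) A0 Q)
      simpa using hA'N
    · have h1 : f ∣ (A' + A0) ^ Q - (A' + A0) := by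
        rw [hQQ]
        exact NFROBSPLIT.t_Frob K f (A' + A0) e' hfi
          (hdeg f hfi (Dvd.dvd.mul_right (dvd_pow_self f hj0) _))
      have h2 := hA'f 0 (by simp)
      have h3 := dvd_add h1 h2
      have h4 : Y D + (A' + A0) ^ Q - B = (A' + A0) ^ Q - (A' + A0) +
        (A' - (B - Y D - A0)) := by ring
      rw [h4]; exact h3
  have hu : ∀ n m : ℕ, (-1 : ℤˣ) ^ n = (-1) ^ m → (-1 : ℤ) ^ n = (-1) ^ m := by
    intro n m h
    have := congrArg (fun u : ℤˣ => (u : ℤ)) h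
    simpa using this
  obtain ⟨B2, hB2⟩ := nsq K hodd f hfm hfi
  have hcB2 : IsCoprime f B2 := by
    rw [← NBAS2.t_Rne K f B2 hfm.ne_zero]
    intro h
    rw [h] at hB2
    have hhq : hq K ≠ 0 := by
      unfold hq
      have h1 : 1 < Fintype.card K := Fintype.one_lt_card
      obtain ⟨k, hk⟩ := hodd
      omega
    rw [zero_pow hhq] at hB2
    have : (1 : AlgebraicClosure K) = 0 := by
      linear_combination hB2
    exact one_ne_zero this
  obtain ⟨E1, hE1m, hE1d, hE1', hE1N, hE1f⟩ := hE 1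
  obtain ⟨E2, hE2m, hE2d, hE2', hE2N, hE2f⟩ := hE B2
  obtain ⟨hs1, hk1⟩ := hκ E1 1 isCoprime_one_right hE1m hE1d hE1' hE1N hE1f
  obtain ⟨hs2, hk2⟩ := hκ E2 B2 hcB2 hE2m hE2d hE2' hE2N hE2f
  have hR1 : R f (1 : K[X]) = 1 := by
    have := NBAS1.t_RC K f 1
    simpa using this
  rw [hR1, one_pow, mul_one] at hk1
  rw [pow_mul, hB2, hj.neg_one_pow, ← hk1, ← pow_succ] at hk2
  have h3 := hu _ _ (neg_one_pow_eq hodd _ _ hk2)
  have hfin : ∀ E : K[X], E.Monic → E.natDegree = e → (X + E).Monic ∧ n0 ≤ (X + E).natDegree := by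
    intro E hEm hEd
    have hlt : (X : K[X]).degree < E.degree := by
      apply degree_lt_degree
      rw [natDegree_X, hEd]; omega
    refine ⟨by rw [add_comm]; exact hEm.add_of_left hlt, ?_⟩
    rw [add_comm, natDegree_add_eq_left_of_degree_lt hlt, hEd]
    omega
  have hm1 : mu ((X + E1) ^ 2 + D) = (-1) ^ Om ((X + E1) ^ 2 + D) := by
    unfold mu
    rw [if_pos hs1]
    rfl
  have hm2 : mu ((X + E2) ^ 2 + D) = -(-1) ^ Om ((X + E1) ^ 2 + D) := by
    unfold mu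
    rw [if_pos hs2]
    have h4 : ((-1 : ℤ)) ^ (UniqueFactorizationMonoid.factors ((X + E2) ^ 2 + D)).card =
      (-1) ^ Om ((X + E2) ^ 2 + D) := rfl
    rw [h4, h3, pow_succ]
    ring
  rcases neg_one_pow_eq_or ℤ (Om ((X + E1) ^ 2 + D)) with h4 | h4
  · rw [h4] at hm1 hm2
    rcases hε with h5 | h5
    · exact ⟨X + E1, (hfin E1 hE1m hE1d).1, (hfin E1 hE1m hE1d).2, by rw [hm1, h5]⟩
    · exact ⟨X + E2, (hfin E2 hE2m hE2d).1, (hfin E2 hE2m hE2d).2, by rw [hm2, h5]⟩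
  · rw [h4] at hm1 hm2
    rcases hε with h5 | h5
    · exact ⟨X + E2, (hfin E2 hE2m hE2d).1, (hfin E2 hE2m hE2d).2, by rw [hm2, h5]; norm_num⟩
    · exact ⟨X + E1, (hfin E1 hE1m hE1d).1, (hfin E1 hE1m hE1d).2, by rw [hm1, h5]⟩

end Pool.Agent.W147.LF
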